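import Pool.Agent.H396Z.Stack.Tree

set_option autoImplicit false

namespace Pool.Agent.H396Z.Stack

open Finset

/-- Both points lie in the closed star below a common centre. -/
def Near (x y : ℕ × ℕ) : Prop := ∃ c, (x = c ∨ par x = c) ∧ (y = c ∨ par y = c)

/-- Invariant of points reached from `x` in `n ≤ r` steps. -/
def Inv (x : ℕ × ℕ) (r n : ℕ) (y : ℕ × ℕ) : Prop :=
  x.1 ≤ y.1 + n ∧ y.1 ≤ x.1 + n ∧
    y.2 / 3 ^ (lg (x.1 + r) - lg y.1) = x.2 / 3 ^ (lg (x.1 + r) - lg x.1)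

theorem par_div (y : ℕ × ℕ) (J : ℕ) (h : lg (y.1 + 1) ≤ J) :
    (par y).2 / 3 ^ (J - lg (par y).1) = y.2 / 3 ^ (J - lg y.1) := by
  show y.2 / 3 ^ (lg (y.1 + 1) - lg y.1) / 3 ^ (J - lg (y.1 + 1)) = _
  have := lg_mono (Nat.le_succ y.1)
  rw [Nat.div_div_eq_div_mul, ← pow_add]
  congr 2
  simp only [Nat.succ_eq_add_one] at this
  omega

theorem Inv.step {x y y' : ℕ × ℕ} {r n : ℕ} (h : Inv x r n y) (hn : n + 1 ≤ r) (hy : Near y y') :
    Inv x r (n + 1) y' := by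
  obtain ⟨h1, h2, h3⟩ := h
  obtain ⟨c, hc, hc'⟩ := hy
  rcases hc with rfl | rfl
  · rcases hc' with rfl | hc'
    · exact ⟨by omega, by omega, h3⟩
    · have e1 : y'.1 + 1 = y.1 := congrArg Prod.fst hc'
      refine ⟨by omega, by omega, ?_⟩
      rw [← par_div y' _ (lg_mono (by omega)), hc', h3]
  · have hp := par_div y (lg (x.1 + r)) (lg_mono (by omega))
    rcases hc' with rfl | hc'
    · have e1 : (par y).1 = y.1 + 1 := rfl
      exact ⟨by omega, by omega, by rw [hp, h3]⟩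
    · have e1 : y'.1 + 1 = y.1 + 1 := congrArg Prod.fst hc'
      refine ⟨by omega, by omega, ?_⟩
      rw [← par_div y' _ (lg_mono (by omega)), hc', hp, h3]

/-- A finite set containing all points reached in at most `r` steps. -/
def ballT (x : ℕ × ℕ) (r : ℕ) : Finset (ℕ × ℕ) :=
  (Finset.Icc (x.1 - r) (x.1 + r)).biUnion fun H =>
    (Finset.range (3 ^ (lg (x.1 + r) - lg H))).image fun i =>
      (H, 3 ^ (lg (x.1 + r) - lg H) * (x.2 / 3 ^ (lg (x.1 + r) - lg x.1)) + i)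

theorem Inv.mem {x y : ℕ × ℕ} {r n : ℕ} (h : Inv x r n y) (hn : n ≤ r) : y ∈ ballT x r := by
  obtain ⟨h1, h2, h3⟩ := h
  unfold ballT
  rw [Finset.mem_biUnion]
  refine ⟨y.1, Finset.mem_Icc.2 ⟨by omega, by omega⟩, Finset.mem_image.2
    ⟨y.2 % 3 ^ (lg (x.1 + r) - lg y.1), Finset.mem_range.2 (Nat.mod_lt _ (by positivity)), ?_⟩⟩
  rw [← h3, Nat.div_add_mod]

theorem sum_levels (J : ℕ) : ∑ H ∈ Finset.range (4 ^ (J + 1)), 3 ^ (J - lg H) ≤ 12 * 4 ^ J := by
  induction J with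
  | zero => simp
  | succ J ih =>
    have hle : 4 ^ (J + 1) ≤ 4 ^ (J + 1 + 1) := Nat.pow_le_pow_right (by norm_num) (by omega)
    rw [← Finset.sum_range_add_sum_Ico _ hle]
    have h1 : ∑ H ∈ Finset.range (4 ^ (J + 1)), 3 ^ (J + 1 - lg H) =
        3 * ∑ H ∈ Finset.range (4 ^ (J + 1)), 3 ^ (J - lg H) := by
      rw [Finset.mul_sum]
      refine Finset.sum_congr rfl fun H hH => ?_
      have := lg_le_of_lt (Finset.mem_range.1 hH)
      rw [show J + 1 - lg H = (J - lg H) + 1 by omega, pow_succ, mul_comm]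
    have h2 : ∑ H ∈ Finset.Ico (4 ^ (J + 1)) (4 ^ (J + 1 + 1)), 3 ^ (J + 1 - lg H) =
        ∑ H ∈ Finset.Ico (4 ^ (J + 1)) (4 ^ (J + 1 + 1)), 1 := by
      refine Finset.sum_congr rfl fun H hH => ?_
      have := lg_mono (Finset.mem_Ico.1 hH).1
      rw [lg_pow] at this
      rw [show J + 1 - lg H = 0 by omega, pow_zero]
    rw [h1, h2, Finset.sum_const, Nat.card_Ico, smul_eq_mul, mul_one, pow_succ 4 (J + 1),
      pow_succ 4 J] at *
    omega

theorem card_ballT (x : ℕ × ℕ) (r : ℕ) (hr : 1 ≤ r) : (ballT x r).card ≤ 36 * r := by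
  have h1 : (ballT x r).card ≤
      ∑ H ∈ Finset.Icc (x.1 - r) (x.1 + r), 3 ^ (lg (x.1 + r) - lg H) := by
    refine Finset.card_biUnion_le.trans (Finset.sum_le_sum fun H _ => ?_)
    exact Finset.card_image_le.trans (by rw [Finset.card_range])
  refine h1.trans ?_
  by_cases h : 2 * r ≤ x.1
  · have h2 : ∑ H ∈ Finset.Icc (x.1 - r) (x.1 + r), 3 ^ (lg (x.1 + r) - lg H) ≤
        ∑ H ∈ Finset.Icc (x.1 - r) (x.1 + r), 3 := by
      refine Finset.sum_le_sum fun H hH => ?_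
      have a1 := (Finset.mem_Icc.1 hH).1
      have a2 := lt_pow_lg H
      have a3 : lg (x.1 + r) ≤ lg H + 1 := by
        apply lg_le_of_lt
        rw [pow_succ 4 (lg H + 1)]
        omega
      calc 3 ^ (lg (x.1 + r) - lg H) ≤ 3 ^ 1 := Nat.pow_le_pow_right (by norm_num) (by omega)
        _ = 3 := by norm_num
    rw [Finset.sum_const, Nat.card_Icc, smul_eq_mul] at h2
    omega
  · have h2 : ∑ H ∈ Finset.Icc (x.1 - r) (x.1 + r), 3 ^ (lg (x.1 + r) - lg H) ≤
        ∑ H ∈ Finset.range (4 ^ (lg (x.1 + r) + 1)), 3 ^ (lg (x.1 + r) - lg H) := by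
      refine Finset.sum_le_sum_of_subset fun H hH => ?_
      have a1 := (Finset.mem_Icc.1 hH).2
      have a2 := lt_pow_lg (x.1 + r)
      exact Finset.mem_range.2 (by omega)
    have h3 := sum_levels (lg (x.1 + r))
    have h4 : 4 ^ lg (x.1 + r) ≤ x.1 + r := Nat.pow_log_le_self 4 (by omega)
    omega

/-- First coordinate of a cell. -/
def pr1 (m : ℕ) : W (TV m) (TE m) → ℕ × ℕ
  | .inl x => x.1.1
  | .inr x => x.1.1

theorem near1 {m : ℕ} {e : TE m} {s : TV m} {u : W (TV m) (TE m)}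
    (h : InQ (tp m) (tq m) e s u) : pr1 m u = par e.1 ∨ par (pr1 m u) = par e.1 := by
  rcases h with rfl | rfl | ⟨e', _, rfl⟩
  · exact Or.inr rfl
  · exact Or.inl rfl
  · exact Or.inr rfl

theorem near2 {m : ℕ} {e : TE m} {s : TV m} {u : W (TV m) (TE m)}
    (h : InQ (tp m) (tq m) e s u) : pr1 m (sw u) = s.1 ∨ par (pr1 m (sw u)) = s.1 := by
  rcases h with rfl | rfl | ⟨e', rfl | rfl, rfl⟩
  · exact Or.inl rfl
  · exact Or.inl rfl
  · exact Or.inl rfl
  · exact Or.inr rfl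

theorem near_of_cl {m : ℕ} {u v : W (TV m) (TE m)} (h : Cl (tp m) (tq m) u v) :
    Near (pr1 m u) (pr1 m v) := by
  rcases h with ⟨e, s, h1, h2⟩ | ⟨e, s, h1, h2⟩
  · exact ⟨_, near1 h1, near1 h2⟩
  · have a1 := near2 h1
    have a2 := near2 h2
    rw [sw_sw] at a1 a2
    exact ⟨_, a1, a2⟩

theorem walk_inv {α : Type} {G : SimpleGraph α} (π : α → ℕ × ℕ)
    (hπ : ∀ u v, G.Adj u v → Near (π u) (π v)) (x : ℕ × ℕ) (r : ℕ) :
    ∀ {u v : α} (w : G.Walk u v) (n : ℕ), n + w.length ≤ r → Inv x r n (π u) →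
      Inv x r (n + w.length) (π v) := by
  intro u v w
  induction w with
  | nil => intro n _ h; simpa using h
  | cons hadj w ih =>
    intro n hn h
    rw [SimpleGraph.Walk.length_cons] at hn ⊢
    have := ih (n + 1) (by omega) (h.step (by omega) (hπ _ _ hadj))
    rwa [show n + (w.length + 1) = n + 1 + w.length by omega]

theorem ball_mem {α : Type} {G : SimpleGraph α} (π : α → ℕ × ℕ)
    (hπ : ∀ u v, G.Adj u v → Near (π u) (π v)) (v w : α) (r : ℕ)
    (h : G.edist v w ≤ (r : ℕ∞)) : π w ∈ ballT (π v) r := by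
  have hne : G.edist v w ≠ ⊤ := ne_top_of_le_ne_top (ENat.natCast_ne_top r) h
  obtain ⟨p, hp⟩ := SimpleGraph.exists_walk_of_edist_ne_top hne
  rw [← hp] at h
  have hl : p.length ≤ r := by exact_mod_cast h
  exact (walk_inv π hπ (π v) r p 0 (by omega) ⟨by omega, by omega, rfl⟩).mem (by omega)

theorem growth (m : ℕ) (v : W (TV m) (TE m)) (r : ℕ) (hr : 1 ≤ r) :
    {w | (PG (tp m) (tq m)).edist v w ≤ (r : ℕ∞)}.ncard ≤ 2592 * r ^ 2 := by
  classical
  have h1 : ∀ u v, (PG (tp m) (tq m)).Adj u v → Near (pr1 m u) (pr1 m v) :=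
    fun u v h => near_of_cl (PG_adj.1 h).2
  have h2 : ∀ u v, (PG (tp m) (tq m)).Adj u v → Near (pr1 m (sw u)) (pr1 m (sw v)) :=
    fun u v h => near_of_cl (PG_adj.1 h).2.swap
  have hinj : Function.Injective
      (fun w : W (TV m) (TE m) => (pr1 m w, pr1 m (sw w), w.isLeft)) := by
    rintro (⟨a, b⟩ | ⟨a, b⟩) (⟨a', b'⟩ | ⟨a', b'⟩) h
    · have e1 : a.1 = a'.1 := congrArg (fun x => x.1) h
      have e2 : b.1 = b'.1 := congrArg (fun x => x.2.1) h
      rw [Subtype.ext e1, Subtype.ext e2]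
    · exact absurd (congrArg (fun x => x.2.2) h) (by simp)
    · exact absurd (congrArg (fun x => x.2.2) h) (by simp)
    · have e1 : a.1 = a'.1 := congrArg (fun x => x.1) h
      have e2 : b.1 = b'.1 := congrArg (fun x => x.2.1) h
      rw [Subtype.ext e1, Subtype.ext e2]
  have hle := Set.ncard_le_ncard_of_injOn
    (s := {w | (PG (tp m) (tq m)).edist v w ≤ (r : ℕ∞)})
    (t := ((ballT (pr1 m v) r ×ˢ ballT (pr1 m (sw v)) r ×ˢ (Finset.univ : Finset Bool) :
      Finset ((ℕ × ℕ) × (ℕ × ℕ) × Bool)) : Set ((ℕ × ℕ) × (ℕ × ℕ) × Bool)))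
    (fun w : W (TV m) (TE m) => (pr1 m w, pr1 m (sw w), w.isLeft))
    (fun w hw => by
      rw [Finset.mem_coe, Finset.mem_product, Finset.mem_product]
      exact ⟨ball_mem (pr1 m) h1 v w r hw, ball_mem (fun u => pr1 m (sw u)) h2 v w r hw,
        Finset.mem_univ _⟩)
    hinj.injOn (Finset.finite_toSet _)
  rw [Set.ncard_coe_finset, Finset.card_product, Finset.card_product, Finset.card_univ,
    Fintype.card_bool] at hle
  have a1 := card_ballT (pr1 m v) r hr
  have a2 := card_ballT (pr1 m (sw v)) r hr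
  calc _ ≤ _ := hle
    _ ≤ (36 * r) * ((36 * r) * 2) := Nat.mul_le_mul a1 (Nat.mul_le_mul_right 2 a2)
    _ = 2592 * r ^ 2 := by ring

theorem tree_no_layout (n m : ℕ) (hm : m = 6 * (n ^ 3 + 1) + 1) (f : W (TV m) (TE m) → ℕ)
    (hf : Function.Injective f) (col : W (TV m) (TE m) → W (TV m) (TE m) → Fin n)
    (hcol : ∀ a b x y, (PG (tp m) (tq m)).Adj a b → (PG (tp m) (tq m)).Adj x y →
      f a < f x → f x < f b → f b < f y → col a b ≠ col x y) : False := by
  classical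
  have := finite_TV m
  have := finite_TE m
  have := Fintype.ofFinite (TV m)
  have := Fintype.ofFinite (TE m)
  have : Nonempty (TV m) := ⟨root m⟩
  exact no_layout (tp m) (tq m) (tp_inj m) (fun v => v.1.1) (fun e => Nat.lt_succ_self _)
    (tree_conn m) (tlab m) (tlab_spec m) n m (by simp [hm]) (tmu m) (tmu_const m 0)
    (tmu_const m 1) (tmu_flip m) f hf col hcol

end Pool.Agent.H396Z.Stack
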