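import Mathlib

set_option autoImplicit false

namespace Pool.Agent.H396Z.Stack

open Finset

theorem z2_ne_zero {x : ZMod 2} (h : x ≠ 0) : x = 1 := by
  revert x; decide

theorem z2_add_self (x : ZMod 2) : x + x = 0 := by
  revert x; decide

theorem z2_eq_of_add {x y : ZMod 2} (h : x + y = 0) : x = y := by
  revert x y; decide

/-- Fredholm alternative over a field. -/
theorem fredholm' {K I J : Type} [Field K] [Fintype I] [Fintype J] (M : J → I → K) (b : J → K) :
    (∃ z : I → K, ∀ j, ∑ i, M j i * z i = b j) ∨
    (∃ y : J → K, (∀ i, ∑ j, y j * M j i = 0) ∧ ∑ j, y j * b j ≠ 0) := by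
  classical
  by_cases h : b ∈ Submodule.span K (Set.range fun i : I => fun j : J => M j i)
  · left
    obtain ⟨c, hc⟩ := (Submodule.mem_span_range_iff_exists_fun K).1 h
    refine ⟨c, fun j => ?_⟩
    have := congrFun hc j
    simp only [Finset.sum_apply, Pi.smul_apply, smul_eq_mul] at this
    rw [← this]
    exact Finset.sum_congr rfl fun i _ => mul_comm _ _
  · right
    obtain ⟨φ, hφ, hφ0⟩ := Submodule.exists_dual_map_eq_bot_of_notMem h inferInstance
    have key : ∀ v : J → K, φ v = ∑ j, φ (Pi.single j 1) * v j := by
      intro v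
      conv_lhs => rw [← Finset.univ_sum_single v]
      rw [map_sum]
      refine Finset.sum_congr rfl fun j _ => ?_
      have : (Pi.single j (v j) : J → K) = v j • (Pi.single j 1 : J → K) := by
        ext k
        by_cases hk : k = j
        · subst hk; simp
        · simp [Pi.single_eq_of_ne hk]
      rw [this, map_smul, smul_eq_mul, mul_comm]
    refine ⟨fun j => φ (Pi.single j 1), fun i => ?_, ?_⟩
    · rw [← key (fun j => M j i)]
      have hm : φ (fun j => M j i) ∈ Submodule.map φ
          (Submodule.span K (Set.range fun i : I => fun j : J => M j i)) :=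
        Submodule.mem_map_of_mem (Submodule.subset_span ⟨i, rfl⟩)
      rw [hφ0] at hm
      exact (Submodule.mem_bot K).1 hm
    · rw [← key b]
      exact hφ

/-- Fredholm alternative over the two-element field. -/
theorem fredholm {I J : Type} [Fintype I] [Fintype J] (M : J → I → ZMod 2) (b : J → ZMod 2) :
    (∃ z : I → ZMod 2, ∀ j, ∑ i, M j i * z i = b j) ∨
    (∃ y : J → ZMod 2, (∀ i, ∑ j, y j * M j i = 0) ∧ ∑ j, y j * b j = 1) := by
  have : Fact (Nat.Prime 2) := ⟨Nat.prime_two⟩
  rcases fredholm' M b with h | ⟨y, h1, h2⟩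
  · exact Or.inl h
  · exact Or.inr ⟨y, h1, z2_ne_zero h2⟩

section
variable {V E : Type} [Fintype V] [Fintype E] [DecidableEq V] [DecidableEq E]

/-- The vertex type of the product graph. -/
abbrev W (V E : Type) := (V × V) ⊕ (E × E)

/-- Exchange of the two factors. -/
def sw : W V E → W V E := Sum.map Prod.swap Prod.swap

omit [Fintype V] [Fintype E] [DecidableEq V] [DecidableEq E] in
theorem sw_sw (w : W V E) : sw (sw w) = w := by
  rcases w with ⟨a, b⟩ | ⟨a, b⟩ <;> rfl

/-- Incidence coefficient. -/
def inc (p q : E → V) (e : E) (t : V) : ZMod 2 :=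
  (if p e = t then 1 else 0) + (if q e = t then 1 else 0)

omit [Fintype E] [DecidableEq E] in
theorem sum_inc_mul (p q : E → V) (e : E) (g : V → ZMod 2) :
    ∑ t, inc p q e t * g t = g (p e) + g (q e) := by
  simp [inc, add_mul, Finset.sum_add_distrib, ite_mul]

/-- A section over the first factor. -/
def Sec (p q : E → V) (z : W V E → ZMod 2) : Prop :=
  (∀ e s, z (.inl (p e, s)) + z (.inl (q e, s)) + ∑ e', inc p q e' s * z (.inr (e, e')) = 0) ∧
  (∀ t, ∑ s, z (.inl (t, s)) = 1)

/-- The matrix of the section equations. -/
def secM (p q : E → V) : (E × V) ⊕ V → W V E → ZMod 2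
  | .inl (e, s), .inl (t, s') => if s = s' then inc p q e t else 0
  | .inl (e, s), .inr (e1, e') => if e = e1 then inc p q e' s else 0
  | .inr t, .inl (t', _) => if t = t' then 1 else 0
  | .inr _, .inr _ => 0

/-- The right-hand side of the section equations. -/
def secB : (E × V) ⊕ V → ZMod 2
  | .inl _ => 0
  | .inr _ => 1

theorem hex (p q : E → V) (L : W V E → Prop) :
    (∃ z, Sec p q z ∧ ∀ w, L w → z w = 0) ∨ (∃ z, Sec p q z ∧ ∀ w, ¬ L (sw w) → z w = 0) := by
  classical
  rcases fredholm (fun j w => if L w then 0 else secM p q j w) (secB (V := V) (E := E)) with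
    ⟨z, hz⟩ | ⟨y, hy, hy1⟩
  · left
    refine ⟨fun w => if L w then 0 else z w, ⟨fun e s => ?_, fun t => ?_⟩, fun w hw => by simp [hw]⟩
    · have h := hz (.inl (e, s))
      have h' : ∑ w, secM p q (.inl (e, s)) w * (if L w then 0 else z w) = 0 := by
        refine Eq.trans (Finset.sum_congr rfl fun w _ => ?_) h
        split_ifs <;> simp
      rw [Fintype.sum_sum_type, Fintype.sum_prod_type, Fintype.sum_prod_type] at h'
      simp only [secM, ite_mul, zero_mul, Finset.sum_ite_eq, Finset.mem_univ, if_true] at h'
      rw [sum_inc_mul p q e (fun t => if L (.inl (t, s)) then 0 else z (.inl (t, s)))] at h'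
      rw [Finset.sum_comm] at h'
      simpa only [Finset.sum_ite_eq, Finset.mem_univ, if_true] using h'
    · have h := hz (.inr t)
      have h' : ∑ w, secM p q (.inr t) w * (if L w then 0 else z w) = 1 := by
        refine Eq.trans (Finset.sum_congr rfl fun w _ => ?_) h
        split_ifs <;> simp
      rw [Fintype.sum_sum_type, Fintype.sum_prod_type, Fintype.sum_prod_type] at h'
      simp only [secM, ite_mul, zero_mul, one_mul, Finset.sum_const_zero, add_zero] at h'
      rw [Finset.sum_comm] at h'
      simpa only [Finset.sum_ite_eq, Finset.mem_univ, if_true] using h'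
  · right
    have hV : ∀ t s, ∑ j, y j * secM p q j (.inl (t, s)) =
        ∑ e, y (.inl (e, s)) * inc p q e t + y (.inr t) := by
      intro t s
      rw [Fintype.sum_sum_type, Fintype.sum_prod_type]
      simp [secM]
    have hE : ∀ e e', ∑ j, y j * secM p q j (.inr (e, e')) =
        y (.inl (e, p e')) + y (.inl (e, q e')) := by
      intro e e'
      rw [Fintype.sum_sum_type, Fintype.sum_prod_type]
      simp only [secM, mul_ite, mul_zero, Finset.sum_const_zero, add_zero]
      rw [Finset.sum_comm]
      simp only [Finset.sum_ite_eq', Finset.mem_univ, if_true]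
      rw [← sum_inc_mul p q e' (fun s => y (.inl (e, s)))]
      exact Finset.sum_congr rfl fun s _ => mul_comm _ _
    refine ⟨fun w => ∑ j, y j * secM p q j (sw w), ⟨fun e' t => ?_, fun s => ?_⟩, fun w hw => ?_⟩
    · simp only [sw, Sum.map_inl, Sum.map_inr, Prod.swap_prod_mk, hV, hE]
      have : ∑ e, inc p q e t * (y (.inl (e, p e')) + y (.inl (e, q e'))) =
          ∑ e, y (.inl (e, p e')) * inc p q e t + ∑ e, y (.inl (e, q e')) * inc p q e t := by
        rw [← Finset.sum_add_distrib]
        exact Finset.sum_congr rfl fun e _ => by ring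
      rw [this]
      generalize ∑ e, y (.inl (e, p e')) * inc p q e t = A
      generalize ∑ e, y (.inl (e, q e')) * inc p q e t = B
      generalize y (.inr t) = C
      revert A B C; decide
    · simp only [sw, Sum.map_inl, Prod.swap_prod_mk, hV]
      rw [Finset.sum_add_distrib, Finset.sum_comm]
      have h0 : ∀ e, ∑ t, y (.inl (e, s)) * inc p q e t = 0 := by
        intro e
        have := sum_inc_mul p q e (fun _ => y (.inl (e, s)))
        rw [z2_add_self] at this
        rw [← this]
        exact Finset.sum_congr rfl fun t _ => mul_comm _ _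
      simp only [h0, Finset.sum_const_zero, zero_add]
      rw [Fintype.sum_sum_type] at hy1
      simpa [secB] using hy1
    · have := hy (sw w)
      simpa [hw] using this

omit [DecidableEq E] in
/-- In a connected graph every even 0-chain is a boundary. -/
theorem exists_bd (p q : E → V)
    (hconn : ∀ g : V → ZMod 2, (∀ e, g (p e) = g (q e)) → ∀ u v, g u = g v)
    (x : V → ZMod 2) (hx : ∑ s, x s = 0) :
    ∃ y : E → ZMod 2, ∀ s, ∑ e, inc p q e s * y e = x s := by
  rcases fredholm (fun s e => inc p q e s) x with h | ⟨g, hg, hg1⟩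
  · exact h
  · exfalso
    have h1 : ∀ e, g (p e) = g (q e) := by
      intro e
      apply z2_eq_of_add
      rw [← sum_inc_mul p q e g, ← hg e]
      exact Finset.sum_congr rfl fun t _ => mul_comm _ _
    rcases isEmpty_or_nonempty V with hV | ⟨⟨v⟩⟩
    · simp at hg1
    · have : ∑ j, g j * x j = g v * ∑ j, x j := by
        rw [Finset.mul_sum]
        exact Finset.sum_congr rfl fun t _ => by rw [hconn g h1 t v]
      rw [this, hx, mul_zero] at hg1
      exact zero_ne_one hg1

omit [Fintype V] [DecidableEq E] in
/-- In a rooted forest the boundary map is injective. -/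
theorem bd_inj (p q : E → V) (hp : Function.Injective p) (ht : V → ℕ)
    (hht : ∀ e, ht (p e) < ht (q e)) (y : E → ZMod 2)
    (hy : ∀ s, ∑ e, inc p q e s * y e = 0) : ∀ e, y e = 0 := by
  have : ∀ n, ∀ e, ht (p e) = n → y e = 0 := by
    intro n
    induction n using Nat.strong_induction_on with
    | _ n ih =>
      intro e he
      have h := hy (p e)
      rw [Finset.sum_eq_single e] at h
      · have hne : q e ≠ p e := fun h' => by have := hht e; rw [h'] at this; omega
        simpa [inc, hne] using h
      · intro e' _ hne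
        have h1 : p e' ≠ p e := fun h' => hne (hp h')
        by_cases h2 : q e' = p e
        · have := hht e'
          rw [ih (ht (p e')) (by rw [h2] at this; omega) e' rfl, mul_zero]
        · simp [inc, h1, h2]
      · simp
  exact fun e => this _ e rfl

end

end Pool.Agent.H396Z.Stack
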