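import Pool.Agent.H396Z.Stack.Hex

set_option autoImplicit false

namespace Pool.Agent.H396Z.Stack

open Finset

/-- Ordering key of a pair crossing the cut at `P`. -/
def key (P x y : ℕ) : ℕ := (P + 1) * (y - x) + x

/-- Indicator of a crossing pair with key below `θ`. -/
def bet (P θ x y : ℕ) : ZMod 2 :=
  if (x ≤ P ∧ P < y ∧ key P x y < θ) ∨ (y ≤ P ∧ P < x ∧ key P y x < θ) then 1 else 0

theorem bet_comm (P θ x y : ℕ) : bet P θ x y = bet P θ y x := by
  unfold bet; simp only [or_comm]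

theorem bet_low {P θ x y : ℕ} (hx : x ≤ P) (hy : y ≤ P) : bet P θ x y = 0 := by
  unfold bet; rw [if_neg]; omega

theorem bet_high {P θ x y : ℕ} (hx : P < x) (hy : P < y) : bet P θ x y = 0 := by
  unfold bet; rw [if_neg]; omega

theorem bet_self (P θ x : ℕ) : bet P θ x x = 0 := by
  unfold bet; rw [if_neg]; omega

theorem bet_zero (P x y : ℕ) : bet P 0 x y = 0 := by
  unfold bet; rw [if_neg]; omega

theorem bet_cross {P θ x y : ℕ} (hx : x ≤ P) (hy : P < y) :
    bet P θ x y = if key P x y < θ then 1 else 0 := by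
  unfold bet
  by_cases h : key P x y < θ
  · rw [if_pos h, if_pos]; omega
  · rw [if_neg h, if_neg]; omega

theorem key_len {P x y x' y' : ℕ} (hx' : x' ≤ P) (h : key P x y < key P x' y') :
    y - x ≤ y' - x' := by
  unfold key at h
  by_contra hc
  have : (P + 1) * (y' - x' + 1) ≤ (P + 1) * (y - x) := Nat.mul_le_mul_left _ (by omega)
  rw [Nat.mul_add] at this
  omega

theorem key_lt {P x y x' y' : ℕ} (hx : x ≤ P) (h : y - x < y' - x') :
    key P x y < key P x' y' := by
  unfold key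
  have : (P + 1) * (y - x + 1) ≤ (P + 1) * (y' - x') := Nat.mul_le_mul_left _ (by omega)
  rw [Nat.mul_add] at this
  omega

theorem key_inj {P x y x' y' : ℕ} (hx : x ≤ P) (hx' : x' ≤ P)
    (h : key P x y = key P x' y') : x = x' := by
  rcases lt_trichotomy (y - x) (y' - x') with h1 | h1 | h1
  · have := key_lt (P := P) hx h1; omega
  · unfold key at h; rw [h1] at h; omega
  · have := key_lt (P := P) hx' h1; omega

/-- A sorted triple on which the indicator is not additive. -/
def Tok (P θ a b c : ℕ) : Prop :=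
  a < b ∧ b < c ∧ a ≤ P ∧ P < c ∧ θ ≤ key P a c ∧
    ((b ≤ P ∧ key P b c < θ) ∨ (P < b ∧ key P a b < θ))

theorem tok_of_sorted {P θ a b c : ℕ} (hab : a < b) (hbc : b < c)
    (h : bet P θ a b + bet P θ b c + bet P θ a c ≠ 0) : Tok P θ a b c := by
  by_cases ha : a ≤ P
  · by_cases hc : P < c
    · by_cases hb : b ≤ P
      · rw [bet_low ha hb, bet_cross hb hc, bet_cross ha hc] at h
        have hk : key P b c < key P a c := key_lt hb (by omega)
        refine ⟨hab, hbc, ha, hc, ?_, Or.inl ⟨hb, ?_⟩⟩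
        · by_contra h1
          rw [if_pos (by omega), if_pos (by omega)] at h
          exact h (by decide)
        · by_contra h1
          rw [if_neg (by omega), if_neg (by omega)] at h
          exact h (by decide)
      · have hb' : P < b := by omega
        rw [bet_cross ha hb', bet_high hb' hc, bet_cross ha hc] at h
        have hk : key P a b < key P a c := key_lt ha (by omega)
        refine ⟨hab, hbc, ha, hc, ?_, Or.inr ⟨hb', ?_⟩⟩
        · by_contra h1
          rw [if_pos (by omega), if_pos (by omega)] at h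
          exact h (by decide)
        · by_contra h1
          rw [if_neg (by omega), if_neg (by omega)] at h
          exact h (by decide)
    · rw [bet_low ha (by omega), bet_low (by omega) (by omega), bet_low ha (by omega)] at h
      exact absurd (by decide) h
  · rw [bet_high (by omega) (by omega), bet_high (by omega) (by omega),
      bet_high (by omega) (by omega)] at h
    exact absurd (by decide) h

theorem tok_cross_aux {P θ a b c a' b' c' : ℕ} (h : Tok P θ a b c) (h' : Tok P θ a' b' c')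
    (haa : a < a') (hbb : b ≠ b') (hcc : c ≠ c') :
    (a < a' ∧ a' < c ∧ c < c') ∨ (a < a' ∧ a' < b ∧ b < b') ∨ (b' < b ∧ b < c' ∧ c' < c) := by
  obtain ⟨h1, h2, h3, h4, h5, h6⟩ := h
  obtain ⟨g1, g2, g3, g4, g5, _⟩ := h'
  rcases h6 with ⟨hb, hk⟩ | ⟨hb, hk⟩
  · have := key_len (P := P) (x := b) (y := c) (x' := a') (y' := c') g3 (by omega)
    omega
  · have := key_len (P := P) (x := a) (y := b) (x' := a') (y' := c') g3 (by omega)
    omega

theorem exists_tok {α : Type} (f : α → ℕ) (S : α → Prop) {P θ : ℕ}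
    {u v w : α} (hu : S u) (hv : S v) (hw : S w)
    (h : bet P θ (f u) (f v) + bet P θ (f v) (f w) + bet P θ (f u) (f w) ≠ 0) :
    ∃ a b c, S a ∧ S b ∧ S c ∧ Tok P θ (f a) (f b) (f c) := by
  have huv : f u ≠ f v := by
    intro e; rw [e, bet_self, zero_add, z2_add_self] at h; exact h rfl
  have hvw : f v ≠ f w := by
    intro e; rw [e, bet_self, add_zero, z2_add_self] at h; exact h rfl
  have huw : f u ≠ f w := by
    intro e; rw [e, bet_self, add_zero, bet_comm, z2_add_self] at h; exact h rfl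
  have c1 := bet_comm P θ (f u) (f v)
  have c2 := bet_comm P θ (f v) (f w)
  have c3 := bet_comm P θ (f u) (f w)
  rcases lt_or_gt_of_ne huv with h1 | h1 <;> rcases lt_or_gt_of_ne hvw with h2 | h2 <;>
    rcases lt_or_gt_of_ne huw with h3 | h3
  · exact ⟨u, v, w, hu, hv, hw, tok_of_sorted h1 h2 h⟩
  · omega
  · refine ⟨u, w, v, hu, hw, hv, tok_of_sorted h3 h2 fun e => h ?_⟩
    rw [← e, c2]; ring
  · refine ⟨w, u, v, hw, hu, hv, tok_of_sorted h3 h1 fun e => h ?_⟩
    rw [← e, c2, c3]; ring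
  · refine ⟨v, u, w, hv, hu, hw, tok_of_sorted h1 h3 fun e => h ?_⟩
    rw [← e, c1]; ring
  · refine ⟨v, w, u, hv, hw, hu, tok_of_sorted h2 h3 fun e => h ?_⟩
    rw [← e, c1, c3]; ring
  · omega
  · refine ⟨w, v, u, hw, hv, hu, tok_of_sorted h2 h1 fun e => h ?_⟩
    rw [← e, c1, c2, c3]; ring

section
variable {V E : Type}

/-- The cells incident with the 1-cell `(e, s)`. -/
def InQ (p q : E → V) (e : E) (s : V) (u : W V E) : Prop :=
  u = .inl (p e, s) ∨ u = .inl (q e, s) ∨ ∃ e', (p e' = s ∨ q e' = s) ∧ u = .inr (e, e')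

/-- Two cells incident with a common 1-cell. -/
def Cl (p q : E → V) (u v : W V E) : Prop :=
  (∃ e s, InQ p q e s u ∧ InQ p q e s v) ∨ (∃ e s, InQ p q e s (sw u) ∧ InQ p q e s (sw v))

theorem Cl.symm {p q : E → V} {u v : W V E} (h : Cl p q u v) : Cl p q v u := by
  rcases h with ⟨e, s, h1, h2⟩ | ⟨e, s, h1, h2⟩
  · exact Or.inl ⟨e, s, h2, h1⟩
  · exact Or.inr ⟨e, s, h2, h1⟩

theorem Cl.swap {p q : E → V} {u v : W V E} (h : Cl p q u v) : Cl p q (sw u) (sw v) := by
  rcases h with ⟨e, s, h1, h2⟩ | ⟨e, s, h1, h2⟩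
  · exact Or.inr ⟨e, s, by rwa [sw_sw], by rwa [sw_sw]⟩
  · exact Or.inl ⟨e, s, h1, h2⟩

/-- The product graph. -/
def PG (p q : E → V) : SimpleGraph (W V E) := SimpleGraph.fromRel (Cl p q)

theorem PG_adj {p q : E → V} {u v : W V E} : (PG p q).Adj u v ↔ u ≠ v ∧ Cl p q u v := by
  unfold PG
  rw [SimpleGraph.fromRel_adj]
  exact ⟨fun h => ⟨h.1, h.2.elim id Cl.symm⟩, fun h => ⟨h.1, Or.inl h.2⟩⟩

theorem sw_inj : Function.Injective (sw : W V E → W V E) :=
  Function.LeftInverse.injective sw_sw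

theorem PG_adj_sw {p q : E → V} {u v : W V E} (h : (PG p q).Adj u v) :
    (PG p q).Adj (sw u) (sw v) := by
  rw [PG_adj] at h ⊢
  exact ⟨fun e => h.1 (sw_inj e), h.2.swap⟩

/-- The strip above an edge of the first factor. -/
def InS (p q : E → V) (e : E) (u : W V E) : Prop :=
  (∃ s, u = .inl (p e, s)) ∨ (∃ s, u = .inl (q e, s)) ∨ ∃ e', u = .inr (e, e')

theorem InQ.inS {p q : E → V} {e : E} {s : V} {u : W V E} (h : InQ p q e s u) : InS p q e u := by
  rcases h with h | h | ⟨e', _, h⟩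
  · exact Or.inl ⟨s, h⟩
  · exact Or.inr (Or.inl ⟨s, h⟩)
  · exact Or.inr (Or.inr ⟨e', h⟩)

theorem strip_disj {p q : E → V} {e e' : E} (hne : e ≠ e') (h1 : p e ≠ p e') (h2 : p e ≠ q e')
    (h3 : q e ≠ p e') (h4 : q e ≠ q e') {u : W V E} (hu : InS p q e u) (hu' : InS p q e' u) :
    False := by
  rcases hu with ⟨s, rfl⟩ | ⟨s, rfl⟩ | ⟨s, rfl⟩ <;>
    rcases hu' with ⟨s', h⟩ | ⟨s', h⟩ | ⟨s', h⟩ <;> simp_all

variable [Fintype V] [Fintype E] [DecidableEq V]

omit [Fintype V] in
theorem clique_zero (p q : E → V) (e : E) (s : V) (z th : W V E → ZMod 2)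
    (hz : z (.inl (p e, s)) + z (.inl (q e, s)) + ∑ e', inc p q e' s * z (.inr (e, e')) = 0)
    (hth : ∀ u v, InQ p q e s u → InQ p q e s v → z u ≠ 0 → z v ≠ 0 → th u = th v) :
    z (.inl (p e, s)) * th (.inl (p e, s)) + z (.inl (q e, s)) * th (.inl (q e, s)) +
      ∑ e', inc p q e' s * (z (.inr (e, e')) * th (.inr (e, e'))) = 0 := by
  have : ∃ k, ∀ u, InQ p q e s u → z u * th u = z u * k := by
    by_cases h : ∃ v, InQ p q e s v ∧ z v ≠ 0
    · obtain ⟨v, hv, hzv⟩ := h
      refine ⟨th v, fun u hu => ?_⟩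
      by_cases hzu : z u = 0
      · simp [hzu]
      · rw [hth u v hu hv hzu hzv]
    · refine ⟨0, fun u hu => ?_⟩
      have : z u = 0 := by
        by_contra hzu; exact h ⟨u, hu, hzu⟩
      simp [this]
  obtain ⟨k, hk⟩ := this
  rw [hk _ (Or.inl rfl), hk _ (Or.inr (Or.inl rfl))]
  have : ∑ e', inc p q e' s * (z (.inr (e, e')) * th (.inr (e, e'))) =
      (∑ e', inc p q e' s * z (.inr (e, e'))) * k := by
    rw [Finset.sum_mul]
    refine Finset.sum_congr rfl fun e' _ => ?_
    by_cases h : p e' = s ∨ q e' = s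
    · rw [hk _ (Or.inr (Or.inr ⟨e', h, rfl⟩)), mul_assoc]
    · push Not at h
      simp [inc, h.1, h.2]
  rw [this, ← add_mul, ← add_mul, hz, zero_mul]

theorem strip_eq (p q : E → V) (e : E) (β : W V E → W V E → ZMod 2)
    (z z' : W V E → ZMod 2) (hz : Sec p q z) (hz' : Sec p q z')
    (hQ : ∀ s u v w, InQ p q e s u → InQ p q e s v → InQ p q e s w → β u v + β v w + β u w = 0)
    (hT : ∀ t e', (t = p e ∨ t = q e) →
      β (.inl (t, p e')) (.inl (t, q e')) =
        β (.inl (t, p e')) (.inr (e, e')) + β (.inl (t, q e')) (.inr (e, e')))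
    (hβz : ∀ u v, InS p q e u → InS p q e v → z u ≠ 0 → z v ≠ 0 → β u v = 0)
    (hβz' : ∀ u v, InS p q e u → InS p q e v → z' u ≠ 0 → z' v ≠ 0 → β u v = 0)
    (y1 y2 : E → ZMod 2)
    (hy1 : ∀ s, ∑ e', inc p q e' s * y1 e' = z (.inl (p e, s)) + z' (.inl (p e, s)))
    (hy2 : ∀ s, ∑ e', inc p q e' s * y2 e' = z (.inl (q e, s)) + z' (.inl (q e, s)))
    (hy : ∀ e', y1 e' + y2 e' = z (.inr (e, e')) + z' (.inr (e, e'))) :
    ∑ e', y1 e' * β (.inl (p e, p e')) (.inl (p e, q e')) =
      ∑ e', y2 e' * β (.inl (q e, p e')) (.inl (q e, q e')) := by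
  set th : V → W V E → ZMod 2 := fun s u => β (.inl (p e, s)) u with hth
  have hsplit : ∀ s u v, InQ p q e s u → InQ p q e s v → β u v = th s u + th s v := by
    intro s u v hu hv
    have := hQ s (.inl (p e, s)) u v (Or.inl rfl) hu hv
    simp only [hth]
    revert this
    generalize β (.inl (p e, s)) u = A
    generalize β (.inl (p e, s)) v = B
    generalize β u v = C
    revert A B C; decide
  have hc : ∀ t, (t = p e ∨ t = q e) → ∀ y : E → ZMod 2,
      ∑ e', y e' * β (.inl (t, p e')) (.inl (t, q e')) =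
        ∑ s, ((∑ e', inc p q e' s * y e') * th s (.inl (t, s)) +
          ∑ e', inc p q e' s * (y e' * th s (.inr (e, e')))) := by
    intro t ht y
    have hin : ∀ s, InQ p q e s (.inl (t, s)) := by
      intro s
      rcases ht with rfl | rfl
      · exact Or.inl rfl
      · exact Or.inr (Or.inl rfl)
    have h1 : ∀ e', β (.inl (t, p e')) (.inl (t, q e')) =
        ∑ s, inc p q e' s * (th s (.inl (t, s)) + th s (.inr (e, e'))) := by
      intro e'
      rw [sum_inc_mul p q e' (fun s => th s (.inl (t, s)) + th s (.inr (e, e'))), hT t e' ht,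
        hsplit (p e') _ _ (hin _) (Or.inr (Or.inr ⟨e', Or.inl rfl, rfl⟩)),
        hsplit (q e') _ _ (hin _) (Or.inr (Or.inr ⟨e', Or.inr rfl, rfl⟩))]
    simp only [h1, Finset.mul_sum, Finset.sum_mul, ← Finset.sum_add_distrib]
    rw [Finset.sum_comm]
    refine Finset.sum_congr rfl fun s _ => Finset.sum_congr rfl fun e' _ => by ring
  apply z2_eq_of_add
  rw [hc _ (Or.inl rfl), hc _ (Or.inr rfl), ← Finset.sum_add_distrib]
  refine Finset.sum_eq_zero fun s _ => ?_
  have hconst : ∀ ζ : W V E → ZMod 2,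
      (∀ u v, InS p q e u → InS p q e v → ζ u ≠ 0 → ζ v ≠ 0 → β u v = 0) →
      ∀ u v, InQ p q e s u → InQ p q e s v → ζ u ≠ 0 → ζ v ≠ 0 → th s u = th s v := by
    intro ζ hζ u v hu hv h1 h2
    apply z2_eq_of_add
    rw [← hsplit s u v hu hv]
    exact hζ u v hu.inS hv.inS h1 h2
  have a1 := clique_zero p q e s z (th s) (hz.1 e s) (hconst z hβz)
  have a2 := clique_zero p q e s z' (th s) (hz'.1 e s) (hconst z' hβz')
  have a3 : ∑ e', inc p q e' s * (y1 e' * th s (.inr (e, e'))) +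
      ∑ e', inc p q e' s * (y2 e' * th s (.inr (e, e'))) =
      ∑ e', inc p q e' s * (z (.inr (e, e')) * th s (.inr (e, e'))) +
      ∑ e', inc p q e' s * (z' (.inr (e, e')) * th s (.inr (e, e'))) := by
    rw [← Finset.sum_add_distrib, ← Finset.sum_add_distrib]
    refine Finset.sum_congr rfl fun e' _ => ?_
    rw [← mul_add, ← mul_add, ← add_mul, ← add_mul, hy]
  rw [hy1, hy2]
  linear_combination a1 + a2 + a3

end

end Pool.Agent.H396Z.Stack
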