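import Pool.Agent.H396Z.Stack.Key

set_option autoImplicit false

namespace Pool.Agent.H396Z.Stack

open Finset

theorem bet_succ {P θ x y : ℕ} (hx : x ≠ θ % (P + 1)) (hy : y ≠ θ % (P + 1)) :
    bet P θ x y = bet P (θ + 1) x y := by
  have h : ∀ a b, a ≤ P → a ≠ θ % (P + 1) → key P a b ≠ θ := by
    intro a b ha hne e
    apply hne
    rw [← e, key, Nat.mul_add_mod, Nat.mod_eq_of_lt (by omega)]
  have h1 := h x y
  have h2 := h y x
  unfold bet
  refine if_congr ?_ rfl rfl
  omega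

theorem bet_big {P θ x y : ℕ} (h1 : key P x y < θ) (h2 : key P y x < θ) :
    bet P θ x y = (if x ≤ P then 1 else 0) + (if y ≤ P then 1 else 0) := by
  by_cases hx : x ≤ P <;> by_cases hy : y ≤ P
  · rw [bet_low hx hy, if_pos hx, if_pos hy]; decide
  · rw [bet_cross hx (by omega), if_pos h1, if_pos hx, if_neg hy]; decide
  · rw [bet_comm, bet_cross hy (by omega), if_pos h2, if_neg hx, if_pos hy]; decide
  · rw [bet_high (by omega) (by omega), if_neg hx, if_neg hy]; decide

section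
variable {V E Λ : Type} [Fintype V] [Fintype E] [DecidableEq V] [DecidableEq E] [Fintype Λ]
  [Nonempty V]

omit [DecidableEq E] in
theorem no_two_sections (p q : E → V) (hp : Function.Injective p) (ht : V → ℕ)
    (hht : ∀ e, ht (p e) < ht (q e))
    (hconn : ∀ g : V → ZMod 2, (∀ e, g (p e) = g (q e)) → ∀ u v, g u = g v)
    (lab : E → Λ)
    (hlab : ∀ e e', lab e = lab e' → e ≠ e' →
      p e ≠ p e' ∧ p e ≠ q e' ∧ q e ≠ p e' ∧ q e ≠ q e')
    (n K : ℕ) (hK : Fintype.card Λ * (n ^ 3 + 1) < K)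
    (μ : (V → ZMod 2) → ZMod 2) (hμ0 : μ (fun _ => 0) = 0) (hμ1 : μ (fun _ => 1) = 1)
    (hμ : ∀ c c' t0, (∀ t, t ≠ t0 → c t = c' t) → μ c ≠ μ c' →
      ∃ g : Fin K → E, Function.Injective g ∧ ∀ i, c (p (g i)) ≠ c (q (g i)))
    (f : W V E → ℕ) (hf : Function.Injective f) (col : W V E → W V E → Fin n)
    (hcol : ∀ a b x y, (PG p q).Adj a b → (PG p q).Adj x y →
      f a < f x → f x < f b → f b < f y → col a b ≠ col x y)
    (P : ℕ) (z z' : W V E → ZMod 2) (hz : Sec p q z) (hz' : Sec p q z')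
    (hzP : ∀ w, f w < P → z w = 0) (hz'P : ∀ w, P < f w → z' w = 0) : False := by
  classical
  have hex : ∀ t, ∃ y : E → ZMod 2,
      ∀ s, ∑ e, inc p q e s * y e = z (.inl (t, s)) + z' (.inl (t, s)) := by
    intro t
    apply exists_bd p q hconn
    rw [Finset.sum_add_distrib, hz.2, hz'.2]; decide
  choose y hy using hex
  have hyy : ∀ e e', y (p e) e' + y (q e) e' = z (.inr (e, e')) + z' (.inr (e, e')) := by
    intro e e'
    apply z2_eq_of_add
    refine bd_inj p q hp ht hht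
      (fun e' => y (p e) e' + y (q e) e' + (z (.inr (e, e')) + z' (.inr (e, e')))) ?_ e'
    intro s
    simp only [mul_add, Finset.sum_add_distrib, hy]
    linear_combination hz.1 e s + hz'.1 e s
  set c : ℕ → V → ZMod 2 := fun θ t =>
    ∑ e', y t e' * bet P θ (f (.inl (t, p e'))) (f (.inl (t, q e'))) with hc
  have hcut : ∀ θ e, c θ (p e) ≠ c θ (q e) → ∃ o : Option (Fin n × Fin n × Fin n),
      (o = none ∧ ∃ u, InS p q e u ∧ f u = P) ∨
      ∃ a b d, InS p q e a ∧ InS p q e b ∧ InS p q e d ∧ (PG p q).Adj a b ∧ (PG p q).Adj b d ∧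
        (PG p q).Adj a d ∧ Tok P θ (f a) (f b) (f d) ∧ o = some (col a b, col b d, col a d) := by
    intro θ e hne
    by_contra hno
    have hno1 : ∀ u, InS p q e u → f u ≠ P := fun u hu h => hno ⟨none, Or.inl ⟨rfl, u, hu, h⟩⟩
    have hno2 : ∀ S : W V E → Prop, (∀ u, S u → InS p q e u) → (∀ u v, S u → S v → Cl p q u v) →
        ∀ u v w, S u → S v → S w →
          bet P θ (f u) (f v) + bet P θ (f v) (f w) + bet P θ (f u) (f w) = 0 := by
      intro S hS hCl u v w hu hv hw
      by_contra h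
      obtain ⟨a, b, d, ha, hb, hd, htok⟩ := exists_tok f S hu hv hw h
      have h1 := htok.1
      have h2 := htok.2.1
      refine hno ⟨_, Or.inr ⟨a, b, d, hS a ha, hS b hb, hS d hd, ?_, ?_, ?_, htok, rfl⟩⟩
      · exact PG_adj.2 ⟨fun e => by rw [e] at h1; omega, hCl _ _ ha hb⟩
      · exact PG_adj.2 ⟨fun e => by rw [e] at h2; omega, hCl _ _ hb hd⟩
      · exact PG_adj.2 ⟨fun e => by rw [e] at h1; omega, hCl _ _ ha hd⟩
    apply hne
    refine strip_eq p q e (fun u v => bet P θ (f u) (f v)) z z' hz hz' ?_ ?_ ?_ ?_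
      (y (p e)) (y (q e)) (hy _) (hy _) (hyy e)
    · intro s u v w hu hv hw
      exact hno2 (InQ p q e s) (fun u hu => hu.inS) (fun u v hu hv => Or.inl ⟨e, s, hu, hv⟩)
        u v w hu hv hw
    · intro t e' hte
      have hS : ∀ s, InS p q e (.inl (t, s)) := by
        intro s
        rcases hte with rfl | rfl
        · exact Or.inl ⟨s, rfl⟩
        · exact Or.inr (Or.inl ⟨s, rfl⟩)
      have := hno2 (fun u => InS p q e u ∧ InQ p q e' t (sw u)) (fun u hu => hu.1)
        (fun u v hu hv => Or.inr ⟨e', t, hu.2, hv.2⟩)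
        (.inl (t, p e')) (.inl (t, q e')) (.inr (e, e')) ⟨hS _, Or.inl rfl⟩
        ⟨hS _, Or.inr (Or.inl rfl)⟩
        ⟨Or.inr (Or.inr ⟨e', rfl⟩), Or.inr (Or.inr ⟨e, hte.imp Eq.symm Eq.symm, rfl⟩)⟩
      apply z2_eq_of_add
      linear_combination this
    · intro u v hu hv h1 h2
      have a1 := hno1 u hu
      have a2 := hno1 v hv
      have b1 : ¬ f u < P := fun h => h1 (hzP u h)
      have b2 : ¬ f v < P := fun h => h2 (hzP v h)
      exact bet_high (by omega) (by omega)
    · intro u v _ _ h1 h2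
      have b1 : ¬ P < f u := fun h => h1 (hz'P u h)
      have b2 : ¬ P < f v := fun h => h2 (hz'P v h)
      exact bet_low (by omega) (by omega)
  have hfew : ∀ θ, ¬ ∃ g : Fin K → E, Function.Injective g ∧
      ∀ i, c θ (p (g i)) ≠ c θ (q (g i)) := by
    rintro θ ⟨g, hg, hgc⟩
    choose o ho using fun i => hcut θ (g i) (hgc i)
    obtain ⟨i, j, hij, he⟩ := Fintype.exists_ne_map_eq_of_card_lt
      (fun i : Fin K => (lab (g i), o i)) (by
        simp only [Fintype.card_prod, Fintype.card_option, Fintype.card_fin]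
        have : n * (n * n) = n ^ 3 := by ring
        rw [this]; exact hK)
    have hl : lab (g i) = lab (g j) := congrArg Prod.fst he
    have hoo : o i = o j := congrArg Prod.snd he
    have hne : g i ≠ g j := fun h => hij (hg h)
    obtain ⟨d1, d2, d3, d4⟩ := hlab _ _ hl hne
    have hdis : ∀ u v, InS p q (g i) u → InS p q (g j) v → f u ≠ f v := by
      intro u v hu hv h
      rw [hf h] at hu
      exact strip_disj hne d1 d2 d3 d4 hu hv
    rcases ho i with ⟨e1, u, hu, hu'⟩ | ⟨a, b, d, ha, hb, hd, hab, hbd, had, htok, e1⟩ <;>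
      rcases ho j with ⟨e2, v, hv, hv'⟩ | ⟨a', b', d', ha', hb', hd', hab', hbd', had', htok', e2⟩
    · exact hdis u v hu hv (by rw [hu', hv'])
    · rw [e1, e2] at hoo; cases hoo
    · rw [e1, e2] at hoo; cases hoo
    · rw [e1, e2] at hoo
      simp only [Option.some.injEq, Prod.mk.injEq] at hoo
      obtain ⟨k1, k2, k3⟩ := hoo
      have n1 := hdis a a' ha ha'
      have n2 := hdis b b' hb hb'
      have n3 := hdis d d' hd hd'
      rcases lt_or_gt_of_ne n1 with hlt | hlt
      · rcases tok_cross_aux htok htok' hlt n2 n3 with h | h | h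
        · exact hcol a d a' d' had had' h.1 h.2.1 h.2.2 k3
        · exact hcol a b a' b' hab hab' h.1 h.2.1 h.2.2 k1
        · exact hcol b' d' b d hbd' hbd h.1 h.2.1 h.2.2 k2.symm
      · rcases tok_cross_aux htok' htok hlt n2.symm n3.symm with h | h | h
        · exact hcol a' d' a d had' had h.1 h.2.1 h.2.2 k3.symm
        · exact hcol a' b' a b hab' hab h.1 h.2.1 h.2.2 k1.symm
        · exact hcol b d b' d' hbd hbd' h.1 h.2.1 h.2.2 k2
  have hone : ∀ n0 : ℕ, ∃ t0 : V, ∀ t, t ≠ t0 → ∀ s, f (.inl (t, s)) ≠ n0 := by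
    intro n0
    by_cases h : ∃ t s, f (.inl (t, s)) = n0
    · obtain ⟨t0, s0, h0⟩ := h
      refine ⟨t0, fun t hne s h1 => hne ?_⟩
      have := hf (h1.trans h0.symm)
      simp only [Sum.inl.injEq, Prod.mk.injEq] at this
      exact this.1
    · exact ⟨Classical.arbitrary V, fun t _ s h1 => h ⟨t, s, h1⟩⟩
  have hzero : ∀ θ, μ (c θ) = 0 := by
    intro θ
    induction θ with
    | zero =>
      have : c 0 = fun _ => 0 := by
        funext t
        simp only [hc, bet_zero, mul_zero, Finset.sum_const_zero]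
      rw [this, hμ0]
    | succ θ ih =>
      obtain ⟨t0, ht0⟩ := hone (θ % (P + 1))
      rw [← ih]
      by_contra hne
      refine hfew θ (hμ (c θ) (c (θ + 1)) t0 (fun t ht => ?_) (Ne.symm hne))
      simp only [hc]
      exact Finset.sum_congr rfl fun e' _ => by rw [bet_succ (ht0 t ht _) (ht0 t ht _)]
  set Θ : ℕ := (Finset.univ.sup fun x : W V E × W V E => key P (f x.1) (f x.2)) + 1 with hΘ
  have hΘlt : ∀ u v, key P (f u) (f v) < Θ := by
    intro u v
    have := Finset.le_sup (f := fun x : W V E × W V E => key P (f x.1) (f x.2))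
      (Finset.mem_univ (u, v))
    simp only at this
    omega
  obtain ⟨t0, ht0⟩ := hone P
  refine hfew Θ (hμ (c Θ) (fun _ => 1) t0 (fun t ht => ?_) (by rw [hzero, hμ1]; decide))
  simp only [hc]
  have h1 : ∀ e', bet P Θ (f (.inl (t, p e'))) (f (.inl (t, q e'))) =
      ∑ s, inc p q e' s * (if f (.inl (t, s)) ≤ P then 1 else 0) := by
    intro e'
    rw [sum_inc_mul p q e' (fun s => if f (.inl (t, s)) ≤ P then 1 else 0),
      bet_big (hΘlt _ _) (hΘlt _ _)]
  simp only [h1, Finset.mul_sum]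
  rw [Finset.sum_comm]
  refine Eq.trans (Finset.sum_congr rfl fun s _ => ?_) (hz'.2 t)
  have h2 : ∑ e', y t e' * (inc p q e' s * (if f (.inl (t, s)) ≤ P then 1 else 0)) =
      (∑ e', inc p q e' s * y t e') * (if f (.inl (t, s)) ≤ P then 1 else 0) := by
    rw [Finset.sum_mul]
    exact Finset.sum_congr rfl fun e' _ => by ring
  rw [h2, hy]
  have h3 := ht0 t ht s
  by_cases h4 : f (.inl (t, s)) ≤ P
  · rw [if_pos h4, hzP _ (by omega), zero_add, mul_one]
  · rw [if_neg h4, hz'P _ (by omega), mul_zero]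

theorem no_layout (p q : E → V) (hp : Function.Injective p) (ht : V → ℕ)
    (hht : ∀ e, ht (p e) < ht (q e))
    (hconn : ∀ g : V → ZMod 2, (∀ e, g (p e) = g (q e)) → ∀ u v, g u = g v)
    (lab : E → Λ)
    (hlab : ∀ e e', lab e = lab e' → e ≠ e' →
      p e ≠ p e' ∧ p e ≠ q e' ∧ q e ≠ p e' ∧ q e ≠ q e')
    (n K : ℕ) (hK : Fintype.card Λ * (n ^ 3 + 1) < K)
    (μ : (V → ZMod 2) → ZMod 2) (hμ0 : μ (fun _ => 0) = 0) (hμ1 : μ (fun _ => 1) = 1)
    (hμ : ∀ c c' t0, (∀ t, t ≠ t0 → c t = c' t) → μ c ≠ μ c' →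
      ∃ g : Fin K → E, Function.Injective g ∧ ∀ i, c (p (g i)) ≠ c (q (g i)))
    (f : W V E → ℕ) (hf : Function.Injective f) (col : W V E → W V E → Fin n)
    (hcol : ∀ a b x y, (PG p q).Adj a b → (PG p q).Adj x y →
      f a < f x → f x < f b → f b < f y → col a b ≠ col x y) : False := by
  classical
  let Q : ℕ → Prop := fun P => (∃ z, Sec p q z ∧ ∀ w, P ≤ f w → z w = 0) ∨
    (∃ z, Sec p q z ∧ ∀ w, P ≤ f (sw w) → z w = 0)
  have hne : ∀ z : W V E → ZMod 2, Sec p q z → ¬ ∀ w, z w = 0 := by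
    intro z hz h0
    have := hz.2 (Classical.arbitrary V)
    simp only [h0, Finset.sum_const_zero] at this
    exact absurd this (by decide)
  have hQ0 : ¬ Q 0 := by
    rintro (⟨z, hz, h⟩ | ⟨z, hz, h⟩)
    · exact hne z hz fun w => h w (Nat.zero_le _)
    · exact hne z hz fun w => h w (Nat.zero_le _)
  have hQN : ∃ N, Q N := by
    refine ⟨Finset.univ.sup f + 1, Or.inl ?_⟩
    have hle : ∀ w, f w ≤ Finset.univ.sup f := fun w => Finset.le_sup (Finset.mem_univ w)
    rcases hex p q (fun _ => False) with ⟨z, hz, _⟩ | ⟨z, hz, _⟩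
    · exact ⟨z, hz, fun w hw => by have := hle w; omega⟩
    · exact ⟨z, hz, fun w hw => by have := hle w; omega⟩
  obtain ⟨P, hP⟩ : ∃ P, Nat.find hQN = P + 1 := by
    apply Nat.exists_eq_succ_of_ne_zero
    intro h
    exact hQ0 (h ▸ Nat.find_spec hQN)
  have hQ1 : Q (P + 1) := hP ▸ Nat.find_spec hQN
  have hQP : ¬ Q P := Nat.find_min hQN (by omega)
  rcases hQ1 with ⟨z', hz', h'⟩ | ⟨z', hz', h'⟩
  · rcases hex p q (fun w => f w < P) with ⟨z, hz, h⟩ | ⟨z, hz, h⟩
    · exact no_two_sections p q hp ht hht hconn lab hlab n K hK μ hμ0 hμ1 hμ f hf col hcol P z z'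
        hz hz' h (fun w hw => h' w hw)
    · exact hQP (Or.inr ⟨z, hz, fun w hw => h w (by omega)⟩)
  · rcases hex p q (fun w => f (sw w) < P) with ⟨z, hz, h⟩ | ⟨z, hz, h⟩
    · exact no_two_sections p q hp ht hht hconn lab hlab n K hK μ hμ0 hμ1 hμ (fun w => f (sw w))
        (hf.comp sw_inj) (fun a b => col (sw a) (sw b))
        (fun a b x y h1 h2 => hcol _ _ _ _ (PG_adj_sw h1) (PG_adj_sw h2)) P z z'
        hz hz' h (fun w hw => h' w hw)
    · exact hQP (Or.inl ⟨z, hz, fun w hw => h w (by rw [sw_sw]; omega)⟩)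

end

end Pool.Agent.H396Z.Stack
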