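import Pool.Agent.H396Z.Stack.Main

set_option autoImplicit false

namespace Pool.Agent.H396Z.Stack

open Finset

/-- Level of a height. -/
def lg (H : ℕ) : ℕ := Nat.log 4 H

theorem lg_mono {a b : ℕ} (h : a ≤ b) : lg a ≤ lg b := Nat.log_mono_right h

theorem lg_pow (j : ℕ) : lg (4 ^ j) = j := Nat.log_pow (by norm_num) j

theorem lt_pow_lg (H : ℕ) : H < 4 ^ (lg H + 1) := Nat.lt_pow_succ_log_self (by norm_num) H

theorem lg_zero : lg 0 = 0 := by simp [lg]

theorem lg_le_of_lt {H j : ℕ} (h : H < 4 ^ (j + 1)) : lg H ≤ j := by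
  rcases Nat.eq_zero_or_pos H with rfl | hH
  · rw [lg_zero]; omega
  · have := Nat.log_lt_of_lt_pow (b := 4) (by omega) h
    unfold lg; omega

theorem lg_succ_le (H : ℕ) : lg (H + 1) ≤ lg H + 1 := by
  apply lg_le_of_lt
  have := lt_pow_lg H
  rw [pow_succ 4 (lg H + 1)]
  omega

theorem div_pow_div (x : ℕ) {i k : ℕ} (h : i ≤ k) : x / 3 ^ i / 3 ^ (k - i) = x / 3 ^ k := by
  rw [Nat.div_div_eq_div_mul, ← pow_add, Nat.add_sub_cancel' h]

theorem div_pow_mono {x y i k : ℕ} (h : x / 3 ^ i = y / 3 ^ i) (hik : i ≤ k) :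
    x / 3 ^ k = y / 3 ^ k := by
  rw [← div_pow_div x hik, ← div_pow_div y hik, h]

/-- Parent of a vertex. -/
def par (x : ℕ × ℕ) : ℕ × ℕ := (x.1 + 1, x.2 / 3 ^ (lg (x.1 + 1) - lg x.1))

/-- Vertices of the subdivided ternary tree. -/
def TV (m : ℕ) : Type := {x : ℕ × ℕ // x.1 ≤ 4 ^ m ∧ x.2 < 3 ^ (m - lg x.1)}

/-- Edges of the subdivided ternary tree, named by their lower end. -/
def TE (m : ℕ) : Type := {x : ℕ × ℕ // x.1 < 4 ^ m ∧ x.2 < 3 ^ (m - lg x.1)}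

theorem finite_TV (m : ℕ) : Finite (TV m) := by
  have : Set.Finite {x : ℕ × ℕ | x.1 ≤ 4 ^ m ∧ x.2 < 3 ^ (m - lg x.1)} := by
    refine ((Set.finite_Iic (4 ^ m)).prod (Set.finite_Iic (3 ^ m))).subset ?_
    rintro x ⟨h1, h2⟩
    refine ⟨h1, ?_⟩
    have : 3 ^ (m - lg x.1) ≤ 3 ^ m := Nat.pow_le_pow_right (by norm_num) (by omega)
    show x.2 ≤ 3 ^ m
    omega
  exact this.to_subtype

/-- Lower end. -/
def tp (m : ℕ) (e : TE m) : TV m := ⟨e.1, e.2.1.le, e.2.2⟩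

/-- Upper end. -/
def tq (m : ℕ) (e : TE m) : TV m := ⟨par e.1, e.2.1, by
  have h1 : lg (e.1.1 + 1) ≤ m := by
    have := lg_mono (show e.1.1 + 1 ≤ 4 ^ m from e.2.1)
    rwa [lg_pow] at this
  have h2 : lg e.1.1 ≤ lg (e.1.1 + 1) := lg_mono (by omega)
  show e.1.2 / 3 ^ (lg (e.1.1 + 1) - lg e.1.1) < 3 ^ (m - lg (e.1.1 + 1))
  apply Nat.div_lt_of_lt_mul
  rw [← pow_add]
  have h3 : lg (e.1.1 + 1) - lg e.1.1 + (m - lg (e.1.1 + 1)) = m - lg e.1.1 := by omega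
  rw [h3]
  exact e.2.2⟩

theorem tp_inj (m : ℕ) : Function.Injective (tp m) := by
  intro e e' h
  exact Subtype.ext (congrArg (fun x : TV m => x.1) h)

theorem finite_TE (m : ℕ) : Finite (TE m) :=
  have := finite_TV m
  Finite.of_injective _ (tp_inj m)

/-- The root. -/
def root (m : ℕ) : TV m := ⟨(4 ^ m, 0), le_rfl, by positivity⟩

theorem tree_conn (m : ℕ) (g : TV m → ZMod 2) (hg : ∀ e, g (tp m e) = g (tq m e)) (u v : TV m) :
    g u = g v := by
  have : ∀ n, ∀ u : TV m, u.1.1 + n = 4 ^ m → g u = g (root m) := by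
    intro n
    induction n with
    | zero =>
      intro u hu
      congr 1
      apply Subtype.ext
      have h2 := u.2.2
      rw [add_zero] at hu
      rw [hu, lg_pow, Nat.sub_self, pow_zero] at h2
      exact Prod.ext hu (by show u.1.2 = 0; omega)
    | succ n ih =>
      intro u hu
      have h1 := hg ⟨u.1, by omega, u.2.2⟩
      have h2 := ih (tq m ⟨u.1, by omega, u.2.2⟩) (by show u.1.1 + 1 + n = 4 ^ m; omega)
      rw [← h2, ← h1]
      rfl
  rw [this (4 ^ m - u.1.1) u (by have := u.2.1; omega),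
    this (4 ^ m - v.1.1) v (by have := v.2.1; omega)]

/-- A proper edge labelling. -/
def tlab (m : ℕ) (e : TE m) : Fin 2 × Fin 3 :=
  (⟨e.1.1 % 2, Nat.mod_lt _ (by norm_num)⟩, ⟨e.1.2 % 3, Nat.mod_lt _ (by norm_num)⟩)

theorem tlab_spec (m : ℕ) (e e' : TE m) (h : tlab m e = tlab m e') (hne : e ≠ e') :
    tp m e ≠ tp m e' ∧ tp m e ≠ tq m e' ∧ tq m e ≠ tp m e' ∧ tq m e ≠ tq m e' := by
  have h1 : e.1.1 % 2 = e'.1.1 % 2 := congrArg (fun x => x.1.val) h
  have h2 : e.1.2 % 3 = e'.1.2 % 3 := congrArg (fun x => x.2.val) h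
  refine ⟨fun h => hne (tp_inj m h), fun h => ?_, fun h => ?_, fun h => hne ?_⟩
  · have : e.1.1 = e'.1.1 + 1 := congrArg (fun x => x.1.1) h
    omega
  · have : e.1.1 + 1 = e'.1.1 := congrArg (fun x => x.1.1) h
    omega
  · have a1 : e.1.1 + 1 = e'.1.1 + 1 := congrArg (fun x => x.1.1) h
    have a2 : e.1.2 / 3 ^ (lg (e.1.1 + 1) - lg e.1.1) =
        e'.1.2 / 3 ^ (lg (e'.1.1 + 1) - lg e'.1.1) := congrArg (fun x => x.1.2) h
    have a3 : e.1.1 = e'.1.1 := by omega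
    rw [← a3] at a2
    have a4 := div_pow_mono (k := 1) a2 (by have := lg_succ_le e.1.1; omega)
    apply Subtype.ext
    refine Prod.ext a3 ?_
    omega

/-- Majority of three bits. -/
def maj (x y z : ZMod 2) : ZMod 2 := x * y + y * z + x * z

/-- Iterated majority. -/
def mu (g : ℕ → ZMod 2) : ℕ → ℕ → ZMod 2
  | 0, a => g a
  | j + 1, a => maj (mu g j (3 * a)) (mu g j (3 * a + 1)) (mu g j (3 * a + 2))

theorem div_succ_of {b j a i : ℕ} (hi : i < 3) (h : b / 3 ^ j = 3 * a + i) :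
    b / 3 ^ (j + 1) = a := by
  rw [pow_succ, ← Nat.div_div_eq_div_mul, h]; omega

theorem mu_congr (g g' : ℕ → ZMod 2) : ∀ j a, (∀ b, b / 3 ^ j = a → g b = g' b) →
    mu g j a = mu g' j a := by
  intro j
  induction j with
  | zero => intro a h; exact h a (by simp)
  | succ j ih =>
    intro a h
    simp only [mu]
    rw [ih (3 * a) fun b hb => h b (div_succ_of (i := 0) (by norm_num) hb),
      ih (3 * a + 1) fun b hb => h b (div_succ_of (by norm_num) hb),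
      ih (3 * a + 2) fun b hb => h b (div_succ_of (by norm_num) hb)]

theorem mu_const (g : ℕ → ZMod 2) (k : ZMod 2) : ∀ j a, (∀ b, b / 3 ^ j = a → g b = k) →
    mu g j a = k := by
  intro j
  induction j with
  | zero => intro a h; exact h a (by simp)
  | succ j ih =>
    intro a h
    simp only [mu]
    rw [ih (3 * a) fun b hb => h b (div_succ_of (i := 0) (by norm_num) hb),
      ih (3 * a + 1) fun b hb => h b (div_succ_of (by norm_num) hb),
      ih (3 * a + 2) fun b hb => h b (div_succ_of (by norm_num) hb)]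
    exact (by decide : ∀ k : ZMod 2, maj k k k = k) k

theorem pivot (g g' : ℕ → ZMod 2) (a0 : ℕ) (hg : ∀ b, b ≠ a0 → g b = g' b) (j : ℕ)
    (h : mu g (j + 1) (a0 / 3 ^ (j + 1)) ≠ mu g' (j + 1) (a0 / 3 ^ (j + 1))) :
    mu g j (a0 / 3 ^ j) ≠ mu g' j (a0 / 3 ^ j) ∧
      ∃ b1 b2, (b1 / 3 ^ (j + 1) = a0 / 3 ^ (j + 1) ∧ b1 / 3 ^ j ≠ a0 / 3 ^ j) ∧
        (b2 / 3 ^ (j + 1) = a0 / 3 ^ (j + 1) ∧ b2 / 3 ^ j ≠ a0 / 3 ^ j) ∧ g b1 ≠ g b2 := by
  set A := a0 / 3 ^ (j + 1) with hA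
  have hA' : A = a0 / 3 ^ j / 3 := by rw [hA, pow_succ, Nat.div_div_eq_div_mul]
  have hoth : ∀ x, x ≠ a0 / 3 ^ j → mu g j x = mu g' j x := fun x hx =>
    mu_congr g g' j x fun b hb => hg b fun e => hx (by rw [← hb, e])
  constructor
  · intro he
    apply h
    have hall : ∀ x, mu g j x = mu g' j x := fun x => by
      by_cases hx : x = a0 / 3 ^ j
      · rw [hx, he]
      · exact hoth x hx
    simp only [mu, hall]
  · by_contra hno
    have : ∃ k, ∀ b, (b / 3 ^ (j + 1) = A ∧ b / 3 ^ j ≠ a0 / 3 ^ j) → g b = k := by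
      by_cases h1 : ∃ b, b / 3 ^ (j + 1) = A ∧ b / 3 ^ j ≠ a0 / 3 ^ j
      · obtain ⟨b0, hb0⟩ := h1
        refine ⟨g b0, fun b hb => ?_⟩
        by_contra hne
        exact hno ⟨b, b0, hb, hb0, hne⟩
      · exact ⟨0, fun b hb => absurd ⟨b, hb⟩ h1⟩
    obtain ⟨k, hk⟩ := this
    have hc : ∀ i, i < 3 → 3 * A + i ≠ a0 / 3 ^ j →
        mu g j (3 * A + i) = k ∧ mu g' j (3 * A + i) = k := by
      intro i hi hne
      have h1 : mu g j (3 * A + i) = k :=
        mu_const g k j _ fun b hb => hk b ⟨div_succ_of hi hb, by rw [hb]; exact hne⟩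
      exact ⟨h1, by rw [← hoth _ hne, h1]⟩
    have m1 : ∀ k x : ZMod 2, maj x k k = k := by decide
    have m2 : ∀ k x : ZMod 2, maj k x k = k := by decide
    have m3 : ∀ k x : ZMod 2, maj k k x = k := by decide
    apply h
    simp only [mu]
    have hcases : a0 / 3 ^ j = 3 * A ∨ a0 / 3 ^ j = 3 * A + 1 ∨ a0 / 3 ^ j = 3 * A + 2 := by
      omega
    rcases hcases with h1 | h1 | h1
    · obtain ⟨x1, x2⟩ := hc 1 (by norm_num) (by omega)
      obtain ⟨y1, y2⟩ := hc 2 (by norm_num) (by omega)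
      rw [x1, x2, y1, y2, m1, m1]
    · obtain ⟨x1, x2⟩ := hc 0 (by norm_num) (by omega)
      obtain ⟨y1, y2⟩ := hc 2 (by norm_num) (by omega)
      rw [add_zero] at x1 x2
      rw [x1, x2, y1, y2, m2, m2]
    · obtain ⟨x1, x2⟩ := hc 0 (by norm_num) (by omega)
      obtain ⟨y1, y2⟩ := hc 1 (by norm_num) (by omega)
      rw [add_zero] at x1 x2
      rw [x1, x2, y1, y2, m3, m3]

theorem exists_step (F : ℕ → ZMod 2) : ∀ N, F 0 ≠ F N → ∃ H, H < N ∧ F H ≠ F (H + 1) := by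
  intro N
  induction N with
  | zero => intro h; exact absurd rfl h
  | succ N ih =>
    intro h
    by_cases h1 : F 0 = F N
    · exact ⟨N, by omega, by rwa [← h1]⟩
    · obtain ⟨H, h2, h3⟩ := ih h1
      exact ⟨H, by omega, h3⟩

/-- Extension of a vertex colouring by zero. -/
def ext0 (m : ℕ) (c : TV m → ZMod 2) (x : ℕ × ℕ) : ZMod 2 :=
  if h : x.1 ≤ 4 ^ m ∧ x.2 < 3 ^ (m - lg x.1) then c ⟨x, h⟩ else 0

theorem ext0_val (m : ℕ) (c : TV m → ZMod 2) (v : TV m) : ext0 m c v.1 = c v := by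
  unfold ext0; rw [dif_pos v.2]; rfl

/-- The majority functional of the tree. -/
def tmu (m : ℕ) (c : TV m → ZMod 2) : ZMod 2 := mu (fun b => ext0 m c (0, b)) m 0

theorem tmu_const (m : ℕ) (k : ZMod 2) : tmu m (fun _ => k) = k := by
  apply mu_const
  intro b hb
  unfold ext0
  rw [dif_pos]
  refine ⟨Nat.zero_le _, ?_⟩
  show b < 3 ^ (m - lg 0)
  rw [lg_zero, Nat.sub_zero]
  exact (Nat.div_eq_zero_iff_lt (by positivity)).1 hb

theorem tmu_flip (m : ℕ) (c c' : TV m → ZMod 2) (t0 : TV m) (hc : ∀ t, t ≠ t0 → c t = c' t)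
    (h : tmu m c ≠ tmu m c') :
    ∃ g : Fin m → TE m, Function.Injective g ∧ ∀ i, c (tp m (g i)) ≠ c (tq m (g i)) := by
  set a0 := t0.1.2 with ha0
  have ha : a0 / 3 ^ m = 0 := by
    have : 3 ^ (m - lg t0.1.1) ≤ 3 ^ m := Nat.pow_le_pow_right (by norm_num) (by omega)
    have := t0.2.2
    exact Nat.div_eq_of_lt (by omega)
  set g : ℕ → ZMod 2 := fun b => ext0 m c (0, b) with hg
  set g' : ℕ → ZMod 2 := fun b => ext0 m c' (0, b) with hg'
  have hgg : ∀ b, b ≠ a0 → g b = g' b := by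
    intro b hb
    simp only [hg, hg', ext0]
    split_ifs with h1
    · exact hc _ fun e => hb (congrArg (fun x : TV m => x.1.2) e)
    · rfl
  have hD : ∀ i j, j + i = m → mu g j (a0 / 3 ^ j) ≠ mu g' j (a0 / 3 ^ j) := by
    intro i
    induction i with
    | zero => intro j hj; rw [add_zero] at hj; rw [hj, ha]; exact h
    | succ i ih => intro j hj; exact (pivot g g' a0 hgg j (ih (j + 1) (by omega))).1
  have hE : ∀ j : Fin m, ∃ e : TE m, ∃ b, e.1.1 < 4 ^ (j.val + 1) ∧ e.1.2 = b / 3 ^ lg e.1.1 ∧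
      b / 3 ^ (j.val + 1) = a0 / 3 ^ (j.val + 1) ∧ b / 3 ^ j.val ≠ a0 / 3 ^ j.val ∧
      c (tp m e) ≠ c (tq m e) := by
    rintro ⟨j, hj⟩
    obtain ⟨b1, b2, hb1, hb2, hne⟩ :=
      (pivot g g' a0 hgg j (hD (m - (j + 1)) (j + 1) (by omega))).2
    have : ∃ b, (b / 3 ^ (j + 1) = a0 / 3 ^ (j + 1) ∧ b / 3 ^ j ≠ a0 / 3 ^ j) ∧
        g b ≠ ext0 m c (4 ^ (j + 1), a0 / 3 ^ (j + 1)) := by
      by_cases h1 : g b1 = ext0 m c (4 ^ (j + 1), a0 / 3 ^ (j + 1))
      · exact ⟨b2, hb2, by rw [← h1]; exact hne.symm⟩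
      · exact ⟨b1, hb1, h1⟩
    obtain ⟨b, hb, hgb⟩ := this
    obtain ⟨H, hH, hF⟩ := exists_step (fun H => ext0 m c (H, b / 3 ^ lg H)) (4 ^ (j + 1))
      (by simp only [lg_zero, lg_pow, pow_zero, Nat.div_one, hb.1]; exact hgb)
    have hle : 4 ^ (j + 1) ≤ 4 ^ m := Nat.pow_le_pow_right (by norm_num) (by omega)
    have hlg : lg H ≤ j := lg_le_of_lt hH
    have hbm : b / 3 ^ m = 0 := by rw [div_pow_mono hb.1 (show j + 1 ≤ m by omega), ha]
    have hlt : b / 3 ^ lg H < 3 ^ (m - lg H) := by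
      rw [← div_pow_div b (show lg H ≤ m by omega)] at hbm
      exact (Nat.div_eq_zero_iff_lt (by positivity)).1 hbm
    refine ⟨⟨(H, b / 3 ^ lg H), by show H < 4 ^ m; omega, hlt⟩, b, hH, rfl, hb.1, hb.2, ?_⟩
    intro he
    apply hF
    have he' := ((ext0_val m c _).trans he).trans (ext0_val m c _).symm
    have he2 : ext0 m c (H, b / 3 ^ lg H) =
      ext0 m c (H + 1, b / 3 ^ lg H / 3 ^ (lg (H + 1) - lg H)) := he'
    rw [div_pow_div b (lg_mono (Nat.le_succ H))] at he2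
    exact he2
  choose e b h1 h2 h3 h4 h5 using hE
  refine ⟨e, ?_, h5⟩
  have hlt : ∀ i j : Fin m, i < j → e i ≠ e j := by
    intro i j hij he
    have hij' : i.val < j.val := hij
    apply h4 j
    have a1 : lg (e i).1.1 ≤ i.val := lg_le_of_lt (h1 i)
    have a2 : b j / 3 ^ lg (e i).1.1 = b i / 3 ^ lg (e i).1.1 := by
      rw [← h2 i, he, ← h2 j]
    rw [div_pow_mono a2 (show lg (e i).1.1 ≤ j.val by omega),
      div_pow_mono (h3 i) (show i.val + 1 ≤ j.val by omega)]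
  intro i j hij
  rcases lt_trichotomy i j with h6 | h6 | h6
  · exact absurd hij (hlt i j h6)
  · exact h6
  · exact absurd hij.symm (hlt j i h6)

end Pool.Agent.H396Z.Stack
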